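import Pool.Agent.helper42.WB.LDefs

/-!
# MP_7b8095, part L4 (helper25): many subgroups of the Coxeter group
-/

set_option autoImplicit false
set_option linter.unusedSectionVars false

namespace Pool.Agent.helper21.WB
namespace L4

variable {m : ℕ} [NeZero m]

/-- half of the points -/
abbrev Y (m : ℕ) : Type := (ZMod m × Fin 3) ⊕ ZMod m

/-- the points -/
abbrev Om (m : ℕ) : Type := Bool × Y m

/-- first involution of `Y` -/
def ta : Y m → Y m
  | Sum.inr j => Sum.inl (j, 0)
  | Sum.inl (j, 0) => Sum.inr j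
  | Sum.inl (j, 1) => Sum.inl (j, 2)
  | Sum.inl (j, 2) => Sum.inl (j, 1)

/-- second involution of `Y` -/
def tb : Y m → Y m
  | Sum.inr j => Sum.inl (j, 1)
  | Sum.inl (j, 1) => Sum.inr j
  | Sum.inl (j, 0) => Sum.inl (j, 2)
  | Sum.inl (j, 2) => Sum.inl (j, 0)

theorem ta_ta (y : Y m) : ta (ta y) = y := by
  rcases y with ⟨j, a⟩ | j
  · fin_cases a <;> rfl
  · rfl

theorem tb_tb (y : Y m) : tb (tb y) = y := by
  rcases y with ⟨j, a⟩ | j
  · fin_cases a <;> rfl
  · rfl

theorem ta_tb (y : Y m) : ta (tb y) = tb (ta y) := by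
  rcases y with ⟨j, a⟩ | j
  · fin_cases a <;> rfl
  · rfl

/-- the permutation of `Y` attached to `π` -/
def sg (p : Equiv.Perm (ZMod m × Fin 3)) : Equiv.Perm (Y m) :=
  Equiv.sumCongr p (Equiv.addRight 1)

/-- first involution -/
def T0 : Om m → Om m := fun x => (x.1, ta x.2)
/-- second involution -/
def T1 : Om m → Om m := fun x => (x.1, tb x.2)
/-- third involution -/
def T9 : Om m → Om m := fun x => (!x.1, x.2)
/-- the involution attached to `π` -/
def S4 (p : Equiv.Perm (ZMod m × Fin 3)) : Om m → Om m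
  | (false, y) => (true, sg p y)
  | (true, y) => (false, (sg p).symm y)

theorem T0_T0 : Function.Involutive (T0 : Om m → Om m) := fun x => by
  simp [T0, ta_ta]
theorem T1_T1 : Function.Involutive (T1 : Om m → Om m) := fun x => by
  simp [T1, tb_tb]
theorem T9_T9 : Function.Involutive (T9 : Om m → Om m) := fun x => by
  simp [T9]
theorem S4_S4 (p : Equiv.Perm (ZMod m × Fin 3)) : Function.Involutive (S4 p : Om m → Om m) := by
  rintro ⟨b, y⟩
  cases b <;> simp [S4]

/-- the images of the generators -/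
def gn (p : Equiv.Perm (ZMod m × Fin 3)) (a : Fin 10) : Equiv.Perm (Om m) :=
  if a = 0 then T0_T0.toPerm else if a = 1 then T1_T1.toPerm else if a = 9 then T9_T9.toPerm
    else if a = 4 then (S4_S4 p).toPerm else 1

theorem gn_sq (p : Equiv.Perm (ZMod m × Fin 3)) (a : Fin 10) : gn p a * gn p a = 1 := by
  unfold gn
  split_ifs
  · ext1 x; exact T0_T0 x
  · ext1 x; exact T1_T1 x
  · ext1 x; exact T9_T9 x
  · ext1 x; exact S4_S4 p x
  · simp

theorem gn_zero (p : Equiv.Perm (ZMod m × Fin 3)) (x : Om m) : gn p 0 x = T0 x := rfl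
theorem gn_one (p : Equiv.Perm (ZMod m × Fin 3)) (x : Om m) : gn p 1 x = T1 x := rfl
theorem gn_nine (p : Equiv.Perm (ZMod m × Fin 3)) (x : Om m) : gn p 9 x = T9 x := rfl
theorem gn_four (p : Equiv.Perm (ZMod m × Fin 3)) (x : Om m) : gn p 4 x = S4 p x := rfl

theorem gn_other (p : Equiv.Perm (ZMod m × Fin 3)) {a : Fin 10} (h0 : a ≠ 0) (h1 : a ≠ 1)
    (h9 : a ≠ 9) (h4 : a ≠ 4) : gn p a = 1 := by
  simp [gn, h0, h1, h9, h4]

theorem c01 (p : Equiv.Perm (ZMod m × Fin 3)) : gn p 0 * gn p 1 = gn p 1 * gn p 0 := by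
  ext1 x
  rw [Equiv.Perm.mul_apply, Equiv.Perm.mul_apply, gn_zero, gn_one, gn_one, gn_zero]
  simp [T0, T1, ta_tb]
theorem c09 (p : Equiv.Perm (ZMod m × Fin 3)) : gn p 0 * gn p 9 = gn p 9 * gn p 0 := by
  ext1 x
  rw [Equiv.Perm.mul_apply, Equiv.Perm.mul_apply, gn_zero, gn_nine, gn_nine, gn_zero]
  simp [T0, T9]
theorem c19 (p : Equiv.Perm (ZMod m × Fin 3)) : gn p 1 * gn p 9 = gn p 9 * gn p 1 := by
  ext1 x
  rw [Equiv.Perm.mul_apply, Equiv.Perm.mul_apply, gn_one, gn_nine, gn_nine, gn_one]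
  simp [T1, T9]

theorem gn_comm (p : Equiv.Perm (ZMod m × Fin 3)) {a b : Fin 10} (h : gr a b = 0) :
    gn p a * gn p b = gn p b * gn p a := by
  by_cases hab : a = b
  · rw [hab]
  by_cases ha : a = 0 ∨ a = 1 ∨ a = 9 ∨ a = 4
  · by_cases hb : b = 0 ∨ b = 1 ∨ b = 9 ∨ b = 4
    · rcases ha with rfl | rfl | rfl | rfl <;> rcases hb with rfl | rfl | rfl | rfl <;>
        first
          | rfl
          | exact c01 p
          | exact c09 p
          | exact c19 p
          | exact (c01 p).symm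
          | exact (c09 p).symm
          | exact (c19 p).symm
          | (exfalso; revert h; decide)
    · push Not at hb
      rw [gn_other p hb.1 hb.2.1 hb.2.2.1 hb.2.2.2, mul_one, one_mul]
  · push Not at ha
    rw [gn_other p ha.1 ha.2.1 ha.2.2.1 ha.2.2.2, mul_one, one_mul]

theorem gn_liftable (p : Equiv.Perm (ZMod m × Fin 3)) : cmx.IsLiftable (gn p) := by
  intro a b
  rw [cmx_apply]
  by_cases hab : a = b
  · subst hab; rw [if_pos rfl, pow_one, gn_sq]
  · rw [if_neg hab]
    by_cases h : gr a b = 0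
    · rw [if_pos h, pow_two]
      calc gn p a * gn p b * (gn p a * gn p b) = gn p a * (gn p b * gn p a) * gn p b := by group
        _ = gn p a * (gn p a * gn p b) * gn p b := by rw [gn_comm p h]
        _ = (gn p a * gn p a) * (gn p b * gn p b) := by group
        _ = 1 := by rw [gn_sq, gn_sq, one_mul]
    · rw [if_neg h, pow_zero]

/-- the action -/
noncomputable def ph (p : Equiv.Perm (ZMod m × Fin 3)) : WC →* Equiv.Perm (Om m) :=
  csC.lift ⟨gn p, gn_liftable p⟩

theorem ph_simple (p : Equiv.Perm (ZMod m × Fin 3)) (a : Fin 10) :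
    ph p (csC.simple a) = gn p a :=
  csC.lift_apply_simple (gn_liftable p) a

/-- the base point -/
def om0 : Om m := (false, Sum.inr 0)

/-- the words reaching the points of `Y` -/
noncomputable def vv : Y m → WC
  | Sum.inr j => (csC.simple 9 * csC.simple 4) ^ j.val
  | Sum.inl (j, 0) => csC.simple 0 * (csC.simple 9 * csC.simple 4) ^ j.val
  | Sum.inl (j, 1) => csC.simple 1 * (csC.simple 9 * csC.simple 4) ^ j.val
  | Sum.inl (j, 2) => csC.simple 0 * (csC.simple 1 * (csC.simple 9 * csC.simple 4) ^ j.val)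

/-- the words reaching the points -/
noncomputable def ww (x : Om m) : WC := (if x.1 = true then csC.simple 9 else 1) * vv x.2

theorem ph_pow (p : Equiv.Perm (ZMod m × Fin 3)) (k : ℕ) :
    ph p ((csC.simple 9 * csC.simple 4) ^ k) om0 = (false, Sum.inr (k : ZMod m)) := by
  induction k with
  | zero => simp [om0]
  | succ k ih =>
    rw [pow_succ', map_mul, Equiv.Perm.mul_apply, ih, map_mul, Equiv.Perm.mul_apply, ph_simple,
      ph_simple, gn_four, gn_nine]
    simp [S4, T9, sg]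

theorem ph_vv (p : Equiv.Perm (ZMod m × Fin 3)) (y : Y m) :
    ph p (vv y) om0 = (false, y) := by
  rcases y with ⟨j, a⟩ | j
  · fin_cases a
    · show ph p (csC.simple 0 * (csC.simple 9 * csC.simple 4) ^ j.val) om0 = _
      rw [map_mul, Equiv.Perm.mul_apply, ph_pow, ph_simple, gn_zero, ZMod.natCast_zmod_val]
      rfl
    · show ph p (csC.simple 1 * (csC.simple 9 * csC.simple 4) ^ j.val) om0 = _
      rw [map_mul, Equiv.Perm.mul_apply, ph_pow, ph_simple, gn_one, ZMod.natCast_zmod_val]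
      rfl
    · show ph p (csC.simple 0 * (csC.simple 1 * (csC.simple 9 * csC.simple 4) ^ j.val)) om0 = _
      rw [map_mul, Equiv.Perm.mul_apply, map_mul, Equiv.Perm.mul_apply, ph_pow, ph_simple,
        ph_simple, gn_one, gn_zero, ZMod.natCast_zmod_val]
      rfl
  · show ph p ((csC.simple 9 * csC.simple 4) ^ j.val) om0 = _
    rw [ph_pow, ZMod.natCast_zmod_val]

theorem ph_ww (p : Equiv.Perm (ZMod m × Fin 3)) (x : Om m) : ph p (ww x) om0 = x := by
  rcases x with ⟨b, y⟩
  unfold ww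
  rw [map_mul, Equiv.Perm.mul_apply, ph_vv]
  cases b
  · simp
  · simp only [if_true, ph_simple, gn_nine]
    rfl

/-- the stabiliser of the base point -/
noncomputable def Hp (p : Equiv.Perm (ZMod m × Fin 3)) : Subgroup WC :=
  (MulAction.stabilizer (Equiv.Perm (Om m)) (om0 : Om m)).comap (ph p)

theorem mem_Hp (p : Equiv.Perm (ZMod m × Fin 3)) (w : WC) : w ∈ Hp p ↔ ph p w om0 = om0 := by
  unfold Hp
  rw [Subgroup.mem_comap, MulAction.mem_stabilizer_iff]
  rfl

theorem Hp_injective : Function.Injective (Hp : Equiv.Perm (ZMod m × Fin 3) → Subgroup WC) := by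
  intro p q hpq
  ext1 x
  have h1 : (ww ((true, Sum.inl (p x)) : Om m))⁻¹ * (csC.simple 4 * ww ((false, Sum.inl x) : Om m))
      ∈ Hp p := by
    rw [mem_Hp, map_mul, Equiv.Perm.mul_apply, map_mul, Equiv.Perm.mul_apply, ph_ww, ph_simple,
      gn_four, map_inv, Equiv.Perm.inv_eq_iff_eq, ph_ww]
    rfl
  rw [hpq, mem_Hp, map_mul, Equiv.Perm.mul_apply, map_mul, Equiv.Perm.mul_apply, ph_ww, ph_simple,
      gn_four, map_inv, Equiv.Perm.inv_eq_iff_eq, ph_ww] at h1
  have h2 : ((true, Sum.inl (q x)) : Om m) = (true, Sum.inl (p x)) := h1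
  simpa using h2.symm

theorem index_Hp (p : Equiv.Perm (ZMod m × Fin 3)) : (Hp p).index = 8 * m := by
  letI : MulAction WC (Om m) := MulAction.compHom (Om m) (ph p)
  have hs : ∀ (w : WC) (x : Om m), w • x = ph p w x := fun w x => rfl
  have h1 : Hp p = MulAction.stabilizer WC (om0 : Om m) := by
    ext w
    rw [mem_Hp, MulAction.mem_stabilizer_iff, hs]
  haveI : MulAction.IsPretransitive WC (Om m) := by
    constructor
    intro x y
    refine ⟨ww y * (ww x)⁻¹, ?_⟩
    rw [hs, map_mul, Equiv.Perm.mul_apply, map_inv]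
    have : (ph p (ww x))⁻¹ x = om0 := by
      rw [Equiv.Perm.inv_eq_iff_eq, ph_ww]
    rw [this, ph_ww]
  rw [h1, MulAction.index_stabilizer_of_transitive]
  rw [Nat.card_prod, Nat.card_sum, Nat.card_prod]
  simp
  ring

end L4

theorem pow_le_factorial (m : ℕ) : m ^ (3 * m) ≤ (3 * m).factorial := by
  have h := Real.pow_div_factorial_le_exp (x := ((3 * m : ℕ) : ℝ)) (by positivity) (3 * m)
  have h3 : Real.exp ((3 * m : ℕ) : ℝ) ≤ 3 ^ (3 * m) := by
    have : Real.exp ((3 * m : ℕ) : ℝ) = Real.exp 1 ^ (3 * m) := by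
      rw [← Real.exp_nat_mul, mul_one]
    rw [this]
    exact pow_le_pow_left₀ (Real.exp_pos 1).le (by linarith [Real.exp_one_lt_d9]) _
  have h4 : (((3 * m : ℕ) : ℝ)) ^ (3 * m) ≤ 3 ^ (3 * m) * ((3 * m).factorial : ℝ) := by
    have hf : (0 : ℝ) < ((3 * m).factorial : ℝ) := by positivity
    rw [div_le_iff₀ hf] at h
    exact h.trans (mul_le_mul_of_nonneg_right h3 hf.le)
  have h5 : (((3 * m : ℕ) : ℝ)) ^ (3 * m) = 3 ^ (3 * m) * (m : ℝ) ^ (3 * m) := by
    push_cast
    rw [mul_pow]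
  rw [h5] at h4
  have h6 : (m : ℝ) ^ (3 * m) ≤ ((3 * m).factorial : ℝ) :=
    le_of_mul_le_mul_left h4 (by positivity)
  exact_mod_cast h6

theorem many_subgroups (m : ℕ) (hm : 1 ≤ m) : ∃ S : Finset (Subgroup WC),
    (∀ H ∈ S, H.index = 8 * m) ∧ m ^ (3 * m) ≤ S.card := by
  classical
  haveI : NeZero m := ⟨by omega⟩
  refine ⟨Finset.univ.image (L4.Hp : Equiv.Perm (ZMod m × Fin 3) → Subgroup WC), ?_, ?_⟩
  · intro H hH
    obtain ⟨p, _, rfl⟩ := Finset.mem_image.1 hH
    exact L4.index_Hp p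
  · rw [Finset.card_image_of_injective _ L4.Hp_injective, Finset.card_univ, Fintype.card_perm,
      Fintype.card_prod, ZMod.card, Fintype.card_fin, mul_comm m 3]
    exact pow_le_factorial m

end Pool.Agent.helper21.WB
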